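import Pool.Agent.W978.QO.Stm

set_option autoImplicit false

namespace Pool.Agent.W899.QO

open Finset Pool.Agent.W978.QN Pool.Agent.W978.QO

lemma mp_map {R S : Type*} [CommRing R] [CommRing S] (φ : R →+* S)
    (b : Fin 3 → Fin 3 → Fin 3 → ℤ) (x : Fin 3 → R) :
    φ (Matrix.of (mp b x)).det = (Matrix.of (mp b (fun i => φ (x i)))).det := by
  rw [RingHom.map_det]
  congr 1
  ext k j
  simp [mp, RingHom.mapMatrix_apply, Matrix.map_apply]

/-- the determinant as a polynomial -/
noncomputable def ff (R : Type*) [CommRing R] (b : Fin 3 → Fin 3 → Fin 3 → ℤ) :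
    MvPolynomial (Fin 3) R :=
  (Matrix.of (mp b (MvPolynomial.X : Fin 3 → MvPolynomial (Fin 3) R))).det

lemma ff_eval {R : Type*} [CommRing R] (b : Fin 3 → Fin 3 → Fin 3 → ℤ) (x : Fin 3 → R) :
    MvPolynomial.eval x (ff R b) = (Matrix.of (mp b x)).det := by
  unfold ff
  rw [mp_map (MvPolynomial.eval x)]
  simp

lemma ff_map {R S : Type*} [CommRing R] [CommRing S] (φ : R →+* S)
    (b : Fin 3 → Fin 3 → Fin 3 → ℤ) : MvPolynomial.map φ (ff R b) = ff S b := by
  unfold ff
  rw [mp_map (MvPolynomial.map φ)]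
  simp

lemma ff_hom (R : Type*) [CommRing R] (b : Fin 3 → Fin 3 → Fin 3 → ℤ) :
    (ff R b).IsHomogeneous 3 := by
  have hmp : ∀ k j : Fin 3,
      (mp b (MvPolynomial.X : Fin 3 → MvPolynomial (Fin 3) R) k j).IsHomogeneous 1 := by
    intro k j
    unfold mp
    apply MvPolynomial.IsHomogeneous.sum
    intro i _
    have h1 : ((b i j k : ℤ) : MvPolynomial (Fin 3) R) = MvPolynomial.C ((b i j k : ℤ) : R) := by
      simp
    rw [h1]
    simpa using (MvPolynomial.isHomogeneous_C (Fin 3) ((b i j k : ℤ) : R)).mul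
      (MvPolynomial.isHomogeneous_X R i)
  unfold ff
  rw [Matrix.det_apply']
  apply MvPolynomial.IsHomogeneous.sum
  intro σ _
  have h1 : (((Equiv.Perm.sign σ : ℤˣ) : ℤ) : MvPolynomial (Fin 3) R) =
      MvPolynomial.C (((Equiv.Perm.sign σ : ℤˣ) : ℤ) : R) := by
    simp
  rw [h1]
  have h2 : (∏ i : Fin 3, Matrix.of (mp b (MvPolynomial.X : Fin 3 → MvPolynomial (Fin 3) R))
      (σ i) i).IsHomogeneous (∑ _i : Fin 3, 1) := by
    apply MvPolynomial.IsHomogeneous.prod
    intro i _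
    exact hmp _ _
  simpa using (MvPolynomial.isHomogeneous_C (Fin 3)
    (((Equiv.Perm.sign σ : ℤˣ) : ℤ) : R)).mul h2

/-- the number of zeros -/
noncomputable def rho (b : Fin 3 → Fin 3 → Fin 3 → ℤ) (d : ℕ) : ℕ :=
  Nat.card {x : Fin 3 → ZMod d // (Matrix.of (mp b x)).det = 0}

lemma rho_le_cube (b : Fin 3 → Fin 3 → Fin 3 → ℤ) (d : ℕ) (hd : d ≠ 0) : rho b d ≤ d ^ 3 := by
  have : NeZero d := ⟨hd⟩
  unfold rho
  calc Nat.card {x : Fin 3 → ZMod d // (Matrix.of (mp b x)).det = 0}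
      ≤ Nat.card (Fin 3 → ZMod d) :=
        Nat.card_le_card_of_injective _ Subtype.val_injective
    _ = d ^ 3 := by simp

lemma rho_prime (b : Fin 3 → Fin 3 → Fin 3 → ℤ) (p : ℕ) [Fact p.Prime]
    (h : ff (ZMod p) b ≠ 0) : rho b p ≤ 3 * p ^ 2 := by
  classical
  have h1 := MvPolynomial.schwartz_zippel_totalDegree h (Finset.univ : Finset (ZMod p))
  have h2 : (ff (ZMod p) b).totalDegree ≤ 3 := (ff_hom (ZMod p) b).totalDegree_le
  have h3 : rho b p = #{f ∈ Fintype.piFinset fun _ : Fin 3 => (Finset.univ : Finset (ZMod p)) |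
      MvPolynomial.eval f (ff (ZMod p) b) = 0} := by
    unfold rho
    rw [Nat.card_eq_fintype_card, Fintype.card_subtype]
    congr 1
    ext x
    simp [ff_eval]
  rw [← h3] at h1
  have hp : 0 < p := (Fact.out : p.Prime).pos
  have hpq : (0 : ℚ≥0) < p := by exact_mod_cast hp
  rw [Finset.card_univ, ZMod.card, div_le_div_iff₀ (by positivity) hpq] at h1
  have h4 : ((ff (ZMod p) b).totalDegree : ℚ≥0) ≤ 3 := by exact_mod_cast h2
  have h5 : (rho b p : ℚ≥0) * p ≤ 3 * p ^ 3 :=
    h1.trans (mul_le_mul_of_nonneg_right h4 (by positivity))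
  have h6 : rho b p * p ≤ 3 * p ^ 2 * p := by
    have : rho b p * p ≤ 3 * p ^ 3 := by exact_mod_cast h5
    calc rho b p * p ≤ 3 * p ^ 3 := this
      _ = 3 * p ^ 2 * p := by ring
  exact Nat.le_of_mul_le_mul_right h6 hp

lemma rho_mul (b : Fin 3 → Fin 3 → Fin 3 → ℤ) (m n : ℕ) (hm : m ≠ 0) (hn : n ≠ 0)
    (h : m.Coprime n) : rho b (m * n) ≤ rho b m * rho b n := by
  have : NeZero m := ⟨hm⟩
  have : NeZero n := ⟨hn⟩
  unfold rho
  rw [← Nat.card_prod]
  let e := ZMod.chineseRemainder h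
  have key : ∀ x : Fin 3 → ZMod (m * n), (Matrix.of (mp b x)).det = 0 →
      (Matrix.of (mp b (fun i => (e (x i)).1))).det = 0 ∧
      (Matrix.of (mp b (fun i => (e (x i)).2))).det = 0 := by
    intro x hx
    have h1 := mp_map ((RingHom.fst (ZMod m) (ZMod n)).comp (e : ZMod (m * n) →+* _)) b x
    have h2 := mp_map ((RingHom.snd (ZMod m) (ZMod n)).comp (e : ZMod (m * n) →+* _)) b x
    rw [hx, map_zero] at h1 h2
    exact ⟨h1.symm, h2.symm⟩
  let F : {x : Fin 3 → ZMod (m * n) // (Matrix.of (mp b x)).det = 0} →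
      {x : Fin 3 → ZMod m // (Matrix.of (mp b x)).det = 0} ×
      {x : Fin 3 → ZMod n // (Matrix.of (mp b x)).det = 0} :=
    fun x => (⟨fun i => (e (x.1 i)).1, (key x.1 x.2).1⟩, ⟨fun i => (e (x.1 i)).2, (key x.1 x.2).2⟩)
  apply Nat.card_le_card_of_injective F
  intro x y hxy
  apply Subtype.ext
  funext i
  apply e.injective
  have h1 := congrArg (fun z => z.1.1 i) hxy
  have h2 := congrArg (fun z => z.2.1 i) hxy
  exact Prod.ext h1 h2

theorem rhoThm : S_RHO := by
  rintro b ⟨p, hp⟩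
  -- a nonzero coefficient
  have hC : ff ℂ b ≠ 0 := by
    intro h0
    apply hp
    rw [← ff_eval, h0, map_zero]
  have hZ : ff ℤ b ≠ 0 := by
    intro h0
    apply hC
    rw [← ff_map (Int.castRingHom ℂ) b, h0, map_zero]
  obtain ⟨s, hs⟩ := MvPolynomial.ne_zero_iff.1 hZ
  set m : ℕ := (MvPolynomial.coeff s (ff ℤ b)).natAbs with hm
  have hm0 : 0 < m := Int.natAbs_pos.2 hs
  have hpr : ∀ q : ℕ, q.Prime → rho b q ≤ Nat.gcd q m * 3 * q ^ 2 := by
    intro q hq
    have : Fact q.Prime := ⟨hq⟩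
    by_cases hqm : q ∣ m
    · rw [Nat.gcd_eq_left hqm]
      calc rho b q ≤ q ^ 3 := rho_le_cube b q hq.ne_zero
        _ ≤ q * 3 * q ^ 2 := by
          have : q * 3 * q ^ 2 = 3 * q ^ 3 := by ring
          omega
    · have h1 : ff (ZMod q) b ≠ 0 := by
        intro h0
        have h2 : MvPolynomial.coeff s (ff (ZMod q) b) = 0 := by rw [h0]; simp
        rw [← ff_map (Int.castRingHom (ZMod q)) b, MvPolynomial.coeff_map,
          eq_intCast, ZMod.intCast_zmod_eq_zero_iff_dvd] at h2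
        exact hqm (Int.natCast_dvd.1 h2)
      have h2 := rho_prime b q h1
      have h3 : 1 ≤ Nat.gcd q m := Nat.gcd_pos_of_pos_right _ hm0
      calc rho b q ≤ 3 * q ^ 2 := h2
        _ = 1 * 3 * q ^ 2 := by ring
        _ ≤ Nat.gcd q m * 3 * q ^ 2 := by gcongr
  have main : ∀ d : ℕ, Squarefree d →
      rho b d ≤ Nat.gcd d m * 3 ^ d.primeFactors.card * d ^ 2 := by
    intro d
    induction d using Nat.recOnPosPrimePosCoprime with
    | prime_pow q n hq hn =>
      intro hsq
      have hn1 : n = 1 := by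
        by_contra hne
        have h2 : 2 ≤ n := by omega
        have h3 : q * q ∣ q ^ n := by
          rw [← sq]; exact pow_dvd_pow q h2
        have h4 := hsq q h3
        rw [Nat.isUnit_iff] at h4
        exact hq.one_lt.ne' h4
      subst hn1
      rw [pow_one, hq.primeFactors, Finset.card_singleton, pow_one]
      exact hpr q hq
    | zero => intro h; exact absurd h not_squarefree_zero
    | one =>
      intro _
      have := rho_le_cube b 1 one_ne_zero
      simpa using this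
    | coprime u v hu hv huv ihu ihv =>
      intro hsq
      have hu2 := ihu (hsq.squarefree_of_dvd (Dvd.intro _ rfl))
      have hv2 := ihv (hsq.squarefree_of_dvd (Dvd.intro_left _ rfl))
      have e1 : (u * v).primeFactors.card = u.primeFactors.card + v.primeFactors.card := by
        rw [huv.primeFactors_mul, Finset.card_union_of_disjoint huv.disjoint_primeFactors]
      have e2 : Nat.gcd (u * v) m = Nat.gcd u m * Nat.gcd v m := by
        rw [Nat.gcd_comm, Nat.Coprime.gcd_mul m huv, Nat.gcd_comm m u, Nat.gcd_comm m v]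
      calc rho b (u * v) ≤ rho b u * rho b v := rho_mul b u v (by omega) (by omega) huv
        _ ≤ (Nat.gcd u m * 3 ^ u.primeFactors.card * u ^ 2) *
            (Nat.gcd v m * 3 ^ v.primeFactors.card * v ^ 2) := Nat.mul_le_mul hu2 hv2
        _ = _ := by rw [e1, e2]; ring
  refine ⟨m, by exact_mod_cast hm0, ?_⟩
  intro d hd hsq
  have h1 := main d hsq
  have h2 : Nat.gcd d m ≤ m := Nat.gcd_le_right _ hm0
  have h3 : rho b d ≤ m * 3 ^ d.primeFactors.card * d ^ 2 :=
    h1.trans (by gcongr)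
  have h4 : (rho b d : ℝ) ≤ (m : ℝ) * 3 ^ d.primeFactors.card * (d : ℝ) ^ 2 := by
    exact_mod_cast h3
  exact h4

end Pool.Agent.W899.QO
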